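import Mathlib

namespace Pool.Agent.Results.MP_dd1d4c_nt.SquareDigits

/-- The number of nonzero digits of `m` in base `p`. -/
def numNonzeroDigits (p m : ℕ) : ℕ :=
  ((Nat.digits p m).filter (fun d => d ≠ 0)).length

/-- Sanity check: 11 is 1011 in base 2. -/
example : numNonzeroDigits 2 11 = 3 := by norm_num [numNonzeroDigits]

theorem nd_zero (p : ℕ) : numNonzeroDigits p 0 = 0 := by
  simp [numNonzeroDigits]

theorem nd_step {p : ℕ} (hp : 2 ≤ p) (m : ℕ) :
    numNonzeroDigits p m = (if m % p = 0 then 0 else 1) + numNonzeroDigits p (m / p) := by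
  rcases Nat.eq_zero_or_pos m with h | h
  · subst h
    simp [numNonzeroDigits]
  · unfold numNonzeroDigits
    rw [Nat.digits_def' (by omega) h, List.filter_cons]
    by_cases h0 : m % p = 0
    · simp [h0]
    · simp [h0]
      omega

theorem nd_add {p : ℕ} (hp : 2 ≤ p) (k : ℕ) : ∀ u v : ℕ, v < p ^ k →
    numNonzeroDigits p (p ^ k * u + v) = numNonzeroDigits p u + numNonzeroDigits p v := by
  induction k with
  | zero =>
    intro u v hv
    have : v = 0 := by simpa using hv
    subst this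
    simp [nd_zero]
  | succ k ih =>
    intro u v hv
    rw [nd_step hp (p ^ (k + 1) * u + v), nd_step hp v]
    have hp0 : 0 < p := by omega
    have h1 : (p ^ (k + 1) * u + v) % p = v % p := by
      have : p ^ (k + 1) * u + v = v + p * (p ^ k * u) := by ring
      rw [this, Nat.add_mul_mod_self_left]
    have h2 : (p ^ (k + 1) * u + v) / p = p ^ k * u + v / p := by
      have : p ^ (k + 1) * u + v = v + p * (p ^ k * u) := by ring
      rw [this, Nat.add_mul_div_left _ _ hp0]
      ring
    have h3 : v / p < p ^ k := by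
      rw [Nat.div_lt_iff_lt_mul hp0]
      calc v < p ^ (k + 1) := hv
        _ = p ^ k * p := by ring
    rw [h1, h2, ih u (v / p) h3]
    ring

theorem nd_le {p : ℕ} (hp : 2 ≤ p) : ∀ m : ℕ, numNonzeroDigits p m ≤ m := by
  intro m
  induction m using Nat.strong_induction_on with
  | _ m ih =>
    rcases Nat.eq_zero_or_pos m with h | h
    · subst h
      simp [nd_zero]
    · rw [nd_step hp m]
      have hlt : m / p < m := Nat.div_lt_self h (by omega)
      have := ih (m / p) hlt
      split_ifs <;> omega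

/-- The block of `k` equal digits `p - 1`. -/
theorem nd_pow_sub_one {p : ℕ} (hp : 2 ≤ p) (k : ℕ) : numNonzeroDigits p (p ^ k - 1) = k := by
  induction k with
  | zero => simp [nd_zero]
  | succ k ih =>
    have hpk : 0 < p ^ k := by positivity
    have e : p ^ (k + 1) - 1 = p ^ k * (p - 1) + (p ^ k - 1) := by
      have h1 : p ^ (k + 1) = p ^ k * (p - 1) + p ^ k := by
        obtain ⟨q, rfl⟩ : ∃ q, p = q + 1 := ⟨p - 1, by omega⟩
        simp only [Nat.add_sub_cancel]
        ring
      rw [h1]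
      omega
    rw [e, nd_add hp k (p - 1) (p ^ k - 1) (by omega), ih]
    have : numNonzeroDigits p (p - 1) = 1 := by
      rw [nd_step hp (p - 1)]
      have h1 : (p - 1) % p = p - 1 := Nat.mod_eq_of_lt (by omega)
      have h2 : (p - 1) / p = 0 := Nat.div_eq_of_lt (by omega)
      rw [h1, h2, nd_zero, if_neg (by omega)]
    rw [this]
    ring

/-- **Q1 has a negative answer for every prime `p`.** There is `s ≥ 1` such that the number of
nonzero base-`p` digits of `n` is unbounded over the `n` prime to `p` for which `n ^ 2` has at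
most `s` nonzero base-`p` digits. -/
theorem result : ∀ p : ℕ, p.Prime →
    ∃ s : ℕ, 1 ≤ s ∧ ∀ ℓ : ℕ, ∃ n : ℕ, ¬ p ∣ n ∧
      numNonzeroDigits p (n ^ 2) ≤ s ∧ ℓ < numNonzeroDigits p n := by
  intro p hprime
  have hp : 2 ≤ p := hprime.two_le
  refine ⟨25, by norm_num, fun ℓ => ?_⟩
  -- `y = p ^ a`, `n = y ^ 4 + 2 y ^ 3 - y ^ 2 + 2 y + 1`
  obtain ⟨a, ha1, ha2⟩ : ∃ a : ℕ, ℓ < a ∧ 4 ≤ a := ⟨ℓ + 4, by omega, by omega⟩
  set y : ℕ := p ^ a with hy
  have hy16 : 16 ≤ y := by
    calc 16 = 2 ^ 4 := by norm_num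
      _ ≤ p ^ 4 := Nat.pow_le_pow_left hp 4
      _ ≤ p ^ a := Nat.pow_le_pow_right (by omega) ha2
  have hyy : 1 ≤ y := by omega
  have key : ∀ u v : ℕ, v < y →
      numNonzeroDigits p (y * u + v) = numNonzeroDigits p u + numNonzeroDigits p v :=
    fun u v hv => nd_add hp a u v hv
  -- the number `n`
  set n : ℕ := y * (y * (y * (y + 1) + (y - 1)) + 2) + 1 with hn
  have hnZ : (n : ℤ) = (y : ℤ) ^ 4 + 2 * y ^ 3 - y ^ 2 + 2 * y + 1 := by
    rw [hn]
    push_cast [Nat.cast_sub hyy]
    ring
  have hsq : n ^ 2 = y * (y * (y * (y * (y * (y * (y * (y * 1 + 4) + 2) + 0) + 11) + 0) + 2) + 4)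
      + 1 := by
    have : ((n ^ 2 : ℕ) : ℤ) =
      ((y * (y * (y * (y * (y * (y * (y * (y * 1 + 4) + 2) + 0) + 11) + 0) + 2) + 4) + 1 : ℕ) : ℤ)
        := by
      push_cast
      rw [hnZ]
      ring
    exact_mod_cast this
  refine ⟨n, ?_, ?_, ?_⟩
  · -- `n ≡ 1 (mod p)`
    intro hdvd
    have hpy : p ∣ y := by
      rw [hy]
      exact dvd_pow_self p (by omega)
    have h1 : p ∣ y * (y * (y * (y + 1) + (y - 1)) + 2) := Dvd.dvd.mul_right hpy _
    have h2 : p ∣ 1 := (Nat.dvd_add_right h1).mp hdvd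
    exact hprime.one_lt.ne' (Nat.dvd_one.mp h2)
  · rw [hsq, key _ _ (by omega), key _ _ (by omega), key _ _ (by omega), key _ _ (by omega),
      key _ _ (by omega), key _ _ (by omega), key _ _ (by omega), key _ _ (by omega)]
    have h1 := nd_le hp 1
    have h2 := nd_le hp 2
    have h4 := nd_le hp 4
    have h11 := nd_le hp 11
    have h0 := nd_le hp 0
    omega
  · rw [hn, key _ _ (by omega), key _ _ (by omega), key _ _ (by omega)]
    have : numNonzeroDigits p (y - 1) = a := by rw [hy]; exact nd_pow_sub_one hp a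
    rw [this]
    omega

end Pool.Agent.Results.MP_dd1d4c_nt.SquareDigits
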